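import Pool.Agent.H28.MCB.Targets

/-!
# Board mlb_modules, row BVB: averages
-/

set_option autoImplicit false

open Finset
open Pool.Agent.H28.MCL Pool.Agent.H28.MCB

namespace Pool.Agent.H37.MCB

theorem ind_nonneg (P : ℕ → Prop) (n : ℕ) : 0 ≤ ind P n := by
  unfold ind
  split_ifs <;> norm_num

theorem ind_of {P : ℕ → Prop} {n : ℕ} (h : P n) : ind P n = 1 := by
  unfold ind
  rw [if_pos h]

theorem ind_not {P : ℕ → Prop} {n : ℕ} (h : ¬ P n) : ind P n = 0 := by
  unfold ind
  rw [if_neg h]

theorem bvb : T_BVB := by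
  classical
  intro ι _ b c δ ρ hδ hρ hc hc1 hb
  choose K hK using hb
  refine ⟨Finset.univ.sup K + 1, fun x y hx hxy => ?_⟩
  have hxy' : x ≤ y := by
    nlinarith [Nat.zero_le (Finset.univ.sup K)]
  have hx0 : (0 : ℝ) < x := by exact_mod_cast hx
  have hlog : 0 ≤ Real.log ((y : ℝ) / x) := by
    apply Real.log_nonneg
    rw [le_div_iff₀ hx0, one_mul]
    exact_mod_cast hxy'
  set P : ι → ℕ → Prop := fun i N => δ * N < ∑ n ∈ Finset.Icc 1 N, b i n with hP
  have hpt : ∀ N : ℕ, ind (fun N => δ * N < ∑ n ∈ Finset.Icc 1 N,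
      ∑ i, c i * b i n) N ≤ ∑ i, ind (P i) N := by
    intro N
    by_cases h : ∃ i, P i N
    · obtain ⟨i, hi⟩ := h
      have h1 : ind (P i) N ≤ ∑ i, ind (P i) N :=
        Finset.single_le_sum (f := fun i => ind (P i) N) (fun i _ => ind_nonneg _ _)
          (Finset.mem_univ i)
      rw [ind_of hi] at h1
      refine le_trans ?_ h1
      unfold ind
      split_ifs <;> norm_num
    · push Not at h
      have h2 : ¬ (δ * N < ∑ n ∈ Finset.Icc 1 N, ∑ i, c i * b i n) := by
        rw [not_lt, Finset.sum_comm]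
        have h3 : ∀ i, ∑ n ∈ Finset.Icc 1 N, c i * b i n ≤ c i * (δ * N) := by
          intro i
          rw [← Finset.mul_sum]
          exact mul_le_mul_of_nonneg_left (not_lt.mp (h i)) (hc i)
        calc ∑ i, ∑ n ∈ Finset.Icc 1 N, c i * b i n ≤ ∑ i, c i * (δ * N) :=
              Finset.sum_le_sum fun i _ => h3 i
          _ = (∑ i, c i) * (δ * N) := by rw [Finset.sum_mul]
          _ ≤ 1 * (δ * N) := mul_le_mul_of_nonneg_right hc1 (by positivity)
          _ = δ * N := one_mul _
      rw [ind_not h2]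
      exact Finset.sum_nonneg fun i _ => ind_nonneg _ _
  calc ∑ n ∈ Finset.Icc x y, ind (fun N => δ * N < ∑ n ∈ Finset.Icc 1 N,
        ∑ i, c i * b i n) n / n ≤ ∑ n ∈ Finset.Icc x y, (∑ i, ind (P i) n) / n :=
        Finset.sum_le_sum fun n _ => div_le_div_of_nonneg_right (hpt n) (Nat.cast_nonneg n)
    _ = ∑ i, ∑ n ∈ Finset.Icc x y, ind (P i) n / n := by
        rw [Finset.sum_comm]
        refine Finset.sum_congr rfl fun n _ => ?_
        rw [Finset.sum_div]
    _ ≤ ∑ _i : ι, ρ / Fintype.card ι * Real.log ((y : ℝ) / x) := by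
        refine Finset.sum_le_sum fun i _ => hK i x y hx ?_
        have h4 : K i ≤ Finset.univ.sup K := Finset.le_sup (Finset.mem_univ i)
        refine le_trans (Nat.mul_le_mul_right x ?_) hxy
        omega
    _ = Fintype.card ι * (ρ / Fintype.card ι * Real.log ((y : ℝ) / x)) := by
        rw [Finset.sum_const, Finset.card_univ, nsmul_eq_mul]
    _ ≤ ρ * Real.log ((y : ℝ) / x) := by
        rcases Nat.eq_zero_or_pos (Fintype.card ι) with h | h
        · rw [h]
          simp only [Nat.cast_zero, zero_mul]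
          exact mul_nonneg hρ.le hlog
        · have h5 : (Fintype.card ι : ℝ) ≠ 0 := by
            have : 0 < (Fintype.card ι : ℝ) := by exact_mod_cast h
            exact this.ne'
          apply le_of_eq
          field_simp

end Pool.Agent.H37.MCB
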